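import Pool.Agent.H441.UA.Prod

/-!
Linear functionals on forms, with values in a function field which is not of general type, which
take powers as values on many powers of linear forms.
-/

set_option autoImplicit false

namespace Pool.Agent.H441.UA

open Polynomial Pool.Agent.W603.LV Pool.Agent.W602.GT Pool.Agent.H441.DF

/-- a polynomial divisible by an `m`-th power -/
theorem pow_form {K : Type} [Field K] [CharZero K] {m : ℕ} (hm : 2 ≤ m) {h : K[X]} (h0 : h ≠ 0)
    (hdeg : h.natDegree ≤ m) (hpow : ∀ c : ℕ, c ≤ 1 → ∃ y, y ^ m = h.eval (c : K)) {p : K[X]}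
    (hp : Irreducible p) (hph : p ^ m ∣ h) : ∃ u v : K, h = (C u + C v * X) ^ m := by
  obtain ⟨q, hq⟩ := hph
  have hq0 : q ≠ 0 := by
    rintro rfl
    rw [mul_zero] at hq
    exact h0 hq
  have hd : h.natDegree = m * p.natDegree + q.natDegree := by
    rw [hq, natDegree_mul (pow_ne_zero _ hp.ne_zero) hq0, natDegree_pow]
  have hp1 := hp.natDegree_pos
  have hp2 : p.natDegree = 1 := by
    by_contra hne
    have h3 : 2 ≤ p.natDegree := by omega
    have h4 : m * 2 ≤ m * p.natDegree := Nat.mul_le_mul_left m h3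
    omega
  have hq2 : q.natDegree = 0 := by
    rw [hp2] at hd
    omega
  obtain ⟨a, b, hab⟩ : ∃ a b : K, p = C a * X + C b :=
    ⟨p.coeff 1, p.coeff 0, eq_X_add_C_of_natDegree_le_one hp2.le⟩
  have ha : a ≠ 0 := by
    rintro rfl
    rw [C_0, zero_mul, zero_add] at hab
    rw [hab, natDegree_C] at hp2
    exact absurd hp2 (by norm_num)
  obtain ⟨e, he⟩ : ∃ e, q = C e := ⟨q.coeff 0, eq_C_of_natDegree_eq_zero hq2⟩
  -- a point where `p` does not vanish
  obtain ⟨c, hc, hpc⟩ : ∃ c : ℕ, c ≤ 1 ∧ p.eval (c : K) ≠ 0 := by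
    by_cases h1 : p.eval ((0 : ℕ) : K) = 0
    · refine ⟨1, le_rfl, fun h2 => ha ?_⟩
      rw [hab] at h1 h2
      simp only [eval_add, eval_mul, eval_C, eval_X, Nat.cast_zero, mul_zero, zero_add,
        Nat.cast_one, mul_one] at h1 h2
      rw [h1, add_zero] at h2
      exact h2
    · exact ⟨0, by omega, h1⟩
  obtain ⟨y, hy⟩ := hpow c hc
  rw [hq, eval_mul, eval_pow, he, eval_C] at hy
  have hρ : (y / p.eval (c : K)) ^ m = e := by
    rw [div_pow, hy, mul_div_cancel_left₀ _ (pow_ne_zero _ hpc)]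
  refine ⟨y / p.eval (c : K) * b, y / p.eval (c : K) * a, ?_⟩
  rw [hq, he, ← hρ, C_pow, ← mul_pow, hab]
  congr 1
  rw [C_mul, C_mul]
  ring

/-- the bound for the first vector -/
def bdA (m : ℕ) : ℕ := m * (1 + (m ^ 2 + 1))

/-- the number of pencils -/
def bdR (r m : ℕ) : ℕ := (bdA m + 1) ^ r * (m + 1) ^ r

/-- the number of points -/
def bdN (r m : ℕ) : ℕ := 4 * (bdR r m * m) + (bdR r m * m + 1) ^ 2

/-- the bound for the entries of the vectors -/
def bd (r m : ℕ) : ℕ := bdA m + (bdN r m + bdR r m * m ^ 2) * m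

variable {K₀ k L : Type} [Field K₀] [Field k] [Field L] [Algebra K₀ L] [Algebra k L]

/-- **The functionals.** -/
theorem main_gt [IsAlgClosed k] [CharZero k] [CharZero K₀]
    (hKk : ∀ x : K₀, ∃ z : k, algebraMap K₀ L x = algebraMap k L z) {w : ℕ}
    (htr : Algebra.trdeg k L = w) (hgt : ¬ GeneralType k L w) {m r : ℕ} (hm : 2 ≤ m)
    (Λ : MvPolynomial (Fin r) K₀ →ₗ[K₀] L)
    (hΛ : ∀ c : Fin r → ℕ, (∀ i, c i ≤ bd r m) → ∃ y, y ^ m = Λ (lin K₀ c ^ m)) :
    ∃ E : IntermediateField k L, E ≠ ⊤ ∧ (∀ x : L, IsAlgebraic E x → x ∈ E) ∧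
      ((∃ u : L, u ≠ 0 ∧ ∀ F : MvPolynomial (Fin r) K₀, F.IsHomogeneous m →
        ∃ e ∈ E, Λ F = u * e) ∨
      ∃ x : Fin r → L, ∀ F : MvPolynomial (Fin r) K₀, F.IsHomogeneous m →
        Λ F = MvPolynomial.aeval x F) := by
  classical
  have hchL : CharZero L := charZero_of_injective_algebraMap (algebraMap k L).injective
  let I : Type := (Fin r → Fin (bdA m + 1)) × (Fin r → Fin (m + 1))
  have hcard : Fintype.card I = bdR r m := by
    simp only [I, Fintype.card_prod, Fintype.card_pi_const, Fintype.card_fin, bdR]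
  let ε : Fin (bdR r m) ≃ I := (Fintype.equivFinOfCardEq hcard).symm
  let hp : Fin (bdR r m) → L[X] := fun i => hpol Λ (lin K₀ fun l => ((ε i).1 l : ℕ))
    (lin K₀ fun l => ((ε i).2 l : ℕ)) m
  have hval : ∀ i, ∀ t ≤ bdN r m + bdR r m * m ^ 2, ∃ y : L, y ^ m = (hp i).eval (t : L) := by
    intro i t ht
    have h1 := hΛ (fun l => ((ε i).1 l : ℕ) + t * ((ε i).2 l : ℕ)) (fun l => by
      have h2 : (((ε i).1 l : ℕ)) ≤ bdA m := Nat.lt_succ_iff.1 ((ε i).1 l).2
      have h3 : (((ε i).2 l : ℕ)) ≤ m := Nat.lt_succ_iff.1 ((ε i).2 l).2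
      have h4 := Nat.mul_le_mul ht h3
      simp only [bd]
      omega)
    rw [lin_add_mul] at h1
    obtain ⟨y, hy⟩ := h1
    exact ⟨y, by rw [hy, hpol_eval]⟩
  let good : Fin (bdR r m) → Prop := fun i => hp i ≠ 0 ∧ ∀ p : L[X], Irreducible p → ¬ p ^ m ∣ hp i
  let h : Fin (bdR r m) → L[X] := fun i => if good i then hp i else 1
  obtain ⟨E, hE, hcl, hEh⟩ := prod_trick (N := bdN r m) htr hgt hm (by
      unfold bdN
      generalize 4 * (bdR r m * m) + (bdR r m * m + 1) ^ 2 = X
      omega) h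
    (fun i => by
      by_cases hi : good i
      · simp only [h, if_pos hi]
        exact hi.1
      · simp only [h, if_neg hi]
        exact one_ne_zero)
    (fun i => by
      by_cases hi : good i
      · simp only [h, if_pos hi]
        exact hpol_deg _ _ _ _
      · simp only [h, if_neg hi, natDegree_one]
        exact Nat.zero_le _)
    (fun i t ht => by
      by_cases hi : good i
      · simp only [h, if_pos hi]
        exact hval i t ht
      · simp only [h, if_neg hi, eval_one]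
        exact ⟨1, one_pow _⟩)
    (fun i p hpi hpd => by
      by_cases hi : good i
      · simp only [h, if_pos hi] at hpd
        exact hi.2 p hpi hpd
      · simp only [h, if_neg hi] at hpd
        have h2 : IsUnit (p ^ m) := isUnit_of_dvd_one hpd
        exact hpi.not_isUnit ((isUnit_pow_iff (by omega)).1 h2))
  refine ⟨E, hE, hcl, ?_⟩
  refine main_alg (E := E.toSubfield) hm (fun x hx => hcl x hx) (fun x => ?_) Λ fun a c ha hc => ?_
  · obtain ⟨z, hz⟩ := hKk x
    rw [hz]
    exact E.algebraMap_mem z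
  · obtain ⟨i, hi⟩ : ∃ i : Fin (bdR r m), hp i = hpol Λ (lin K₀ a) (lin K₀ c) m := by
      refine ⟨ε.symm (fun l => ⟨a l, Nat.lt_succ_iff.2 (ha l)⟩, fun l =>
        ⟨c l, Nat.lt_succ_iff.2 (hc l)⟩), ?_⟩
      simp only [hp, Equiv.apply_symm_apply]
    rw [← hi]
    by_cases hg : good i
    · left
      obtain ⟨u, hu, h1⟩ := hEh i
      simp only [h, if_pos hg] at h1
      exact ⟨u, hu, h1⟩
    · by_cases h0 : hp i = 0
      · left
        refine ⟨1, one_ne_zero, fun j => ⟨0, E.zero_mem, ?_⟩⟩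
        rw [h0, coeff_zero, mul_zero]
      · right
        have h1 : ∃ p : L[X], Irreducible p ∧ p ^ m ∣ hp i := by
          by_contra hcon
          push Not at hcon
          exact hg ⟨h0, hcon⟩
        obtain ⟨p, hp1, hp2⟩ := h1
        refine pow_form hm h0 (hpol_deg _ _ _ _) (fun t ht => hval i t ?_) hp1 hp2
        refine ht.trans ?_
        have : 1 ≤ bdN r m := by
          unfold bdN
          have : 0 < (bdR r m * m + 1) ^ 2 := by positivity
          omega
        omega

end Pool.Agent.H441.UA
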