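import Pool.Agent.H441.UA.Emb
import Pool.Graph.R_pool_sql_team_seeded_63374d34.N254.SQ.StmR
import Pool.Graph.R_pool_sql_team_seeded_63374d34.N254.SQ.Comp

/-!
Components of closed sets in intersections of diagonal hypersurfaces.
-/

set_option autoImplicit false

namespace Pool.Agent.H441.UA

open MvPolynomial
open Pool.Agent.N254.SQ hiding Extends lin
open Pool.Agent.W602.GT (GeneralType coords SubVar val)
open Pool.Agent.H441.DQ (dform dform_eval dform_hom)

section twist

variable {N : ℕ}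

/-- the change of coordinates `y_j ↦ ζ_j y_j` -/
noncomputable def twist (ζ : Fin (N + 1) → ℂ) (G : MvPolynomial (Fin (N + 1)) ℂ) :
    MvPolynomial (Fin (N + 1)) ℂ := aeval (fun j => C (ζ j) * X j) G

theorem twist_hom (ζ : Fin (N + 1) → ℂ) {G : MvPolynomial (Fin (N + 1)) ℂ} {e : ℕ}
    (hG : G.IsHomogeneous e) : (twist ζ G).IsHomogeneous e := by
  have h1 := hG.aeval (fun j => (C (ζ j) * X j : MvPolynomial (Fin (N + 1)) ℂ)) (n := 1)
    (fun j => isHomogeneous_C_mul_X _ _)
  rwa [one_mul] at h1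

theorem twist_form (ζ : Fin (N + 1) → ℂ) {G : MvPolynomial (Fin (N + 1)) ℂ} (hG : IsForm G) :
    IsForm (twist ζ G) := by
  obtain ⟨e, he⟩ := hG
  exact ⟨e, twist_hom ζ he⟩

theorem twist_eval (ζ : Fin (N + 1) → ℂ) (G : MvPolynomial (Fin (N + 1)) ℂ) {L : Type} [Field L]
    [Algebra ℂ L] (y : Fin (N + 1) → L) :
    aeval y (twist ζ G) = aeval (fun j => algebraMap ℂ L (ζ j) * y j) G := by
  unfold twist
  rw [← AlgHom.comp_apply]
  congr 1
  apply MvPolynomial.algHom_ext
  intro j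
  rw [AlgHom.comp_apply, aeval_X, aeval_X, map_mul, aeval_C, aeval_X]

end twist

section gen

variable {K : Type} [Field K] {m n N k : ℕ} {ι κ γ : Type} {F : ι → MvPolynomial (Fin (n + 1)) K}
  {T : κ → MvPolynomial (Fin (n + 1)) K} {G : γ → MvPolynomial (Fin (n + 1)) K}
  {φ : Fin (N + 1) → MvPolynomial (Fin (n + 1)) K} {c : Fin k → Fin (N + 1) → K}
  {I J : Set (Fin (N + 1))}

/-- the values of the monomials -/
theorem FEmb.exists_mono (hE : FEmb m F T G φ c I J) : ∃ e, 1 ≤ e ∧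
    (∀ j, (φ j).IsHomogeneous e) ∧ ∀ a b : Fin (n + 1), ∃ j, φ j = X a * X b ^ (e - 1) := by
  classical
  obtain ⟨e, he, hφ, hm⟩ := hE.mono
  refine ⟨e, he, hφ, fun a b => ?_⟩
  obtain ⟨j, hj⟩ := hm (fun i => (if i = a then 1 else 0) + if i = b then e - 1 else 0) (by
    rw [Finset.sum_add_distrib]
    simp
    omega)
  refine ⟨j, ?_⟩
  rw [hj]
  simp only [pow_add, Finset.prod_mul_distrib]
  congr 1
  · rw [Finset.prod_eq_single a]
    · simp
    · intro i _ hi
      simp [hi]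
    · intro h
      exact absurd (Finset.mem_univ a) h
  · rw [Finset.prod_eq_single b]
    · simp
    · intro i _ hi
      simp [hi]
    · intro h
      exact absurd (Finset.mem_univ b) h

/-- the function field of the image -/
theorem FEmb.coords_eq (hE : FEmb m F T G φ c I J) {E L : Type} [Field E] [Field L] [Algebra E L]
    (σ : K →+* E) {y : Fin (n + 1) → L} (hy : coords E y = ⊤) :
    coords E (vals ((algebraMap E L).comp σ) φ y) = ⊤ := by
  obtain ⟨e, he, -, hm⟩ := hE.exists_mono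
  rw [eq_top_iff, ← hy]
  unfold coords
  rw [IntermediateField.adjoin_le_iff]
  rintro _ ⟨a, b, hb, rfl⟩
  obtain ⟨j, hj⟩ := hm a b
  obtain ⟨j', hj'⟩ := hm b b
  have e1 : vals ((algebraMap E L).comp σ) φ y j = y a * y b ^ (e - 1) := by
    unfold vals
    rw [hj, eval₂_mul, eval₂_pow, eval₂_X, eval₂_X]
  have e2 : vals ((algebraMap E L).comp σ) φ y j' = y b * y b ^ (e - 1) := by
    unfold vals
    rw [hj', eval₂_mul, eval₂_pow, eval₂_X]
  have hb' : y b ^ (e - 1) ≠ 0 := pow_ne_zero _ hb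
  apply IntermediateField.subset_adjoin
  refine ⟨j, j', ?_, ?_⟩
  · rw [e2]
    exact mul_ne_zero hb hb'
  · rw [e1, e2, mul_div_mul_right _ _ hb']

theorem FEmb.gen (hE : FEmb m F T G φ c I J) (σ : K →+* ℂ) {L : Type} [Field L] [Algebra ℂ L]
    {w : ℕ} {y : Fin (n + 1) → L} (hy : Gen L w y) :
    Gen L w (vals ((algebraMap ℂ L).comp σ) φ y) :=
  ⟨hE.ne L _ y hy.ne, hE.coords_eq σ hy.gen, hy.dim⟩

/-- the pullback of a form on the ambient space -/
noncomputable def pullφ (σ : K →+* ℂ) (φ : Fin (N + 1) → MvPolynomial (Fin (n + 1)) K)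
    (P : MvPolynomial (Fin (N + 1)) ℂ) : MvPolynomial (Fin (n + 1)) ℂ :=
  aeval (fun j => map σ (φ j)) P

theorem pullφ_eval (σ : K →+* ℂ) (φ : Fin (N + 1) → MvPolynomial (Fin (n + 1)) K)
    (P : MvPolynomial (Fin (N + 1)) ℂ) {L : Type} [Field L] [Algebra ℂ L] (y : Fin (n + 1) → L) :
    aeval y (pullφ σ φ P) = aeval (vals ((algebraMap ℂ L).comp σ) φ y) P := by
  unfold pullφ
  rw [← AlgHom.comp_apply]
  congr 1
  apply MvPolynomial.algHom_ext
  intro j
  rw [AlgHom.comp_apply, aeval_X, aeval_X, aeval_def, eval₂_map]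
  rfl

theorem FEmb.pull_form (hE : FEmb m F T G φ c I J) (σ : K →+* ℂ)
    {P : MvPolynomial (Fin (N + 1)) ℂ} (hP : IsForm P) : IsForm (pullφ σ φ P) := by
  obtain ⟨e, -, hφ, -⟩ := hE.mono
  obtain ⟨d, hd⟩ := hP
  refine ⟨e * d, ?_⟩
  exact hd.aeval _ fun j => (hφ j).map σ

theorem form_smul {P : MvPolynomial (Fin (N + 1)) ℂ} (hP : IsForm P) {L : Type} [Field L]
    [Algebra ℂ L] {s : L} (hs : s ≠ 0) (y : Fin (N + 1) → L) :
    aeval (fun j => s * y j) P = 0 ↔ aeval y P = 0 := by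
  exact aeval_zero_of hP hs y

/-- **The key lemma.** -/
theorem key (hC : Comp_stm) (hm : m ≠ 0) (σ : K →+* ℂ) (hE : FEmb m F T G φ c I J) {L : Type}
    [Field L] [Algebra ℂ L] {w : ℕ} {y : Fin (n + 1) → L} (hw : 1 ≤ w) (hy : Gen L w y)
    (hirr : ∀ P, IsForm P → aeval y P = 0 → ∀ (Ω : Type) [Field Ω] [Algebra ℂ Ω]
      (x : Fin (n + 1) → Ω), (∀ i, eval₂ ((algebraMap ℂ Ω).comp σ) x (F i) = 0) → aeval x P = 0)
    (hgt : GeneralType ℂ L w) {Q : MvPolynomial (Fin (N + 1)) ℂ → Prop} (hQ : Idl Q)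
    (hQc : ∀ i, Q (map σ (dform m (c i))))
    (hno : ∀ (L' : Type) [Field L'] [Algebra ℂ L'] (w' : ℕ) (y' : Fin (N + 1) → L'), 1 ≤ w' →
      SubVar (fun i : Fin k => map σ (dform m (c i))) L' w' y' → GeneralType ℂ L' w' →
      ¬ Component Q y') :
    ∃ P, IsForm P ∧ Q P ∧ aeval (vals ((algebraMap ℂ L).comp σ) φ y) P ≠ 0 := by
  by_contra hcon
  push Not at hcon
  have hform : ∀ i, IsForm (map σ (dform m (c i))) := fun i => ⟨m, (dform_hom (c i)).map σ⟩
  have hsub : ∀ (L' : Type) [Field L'] [Algebra ℂ L'] (w' : ℕ) (y' : Fin (N + 1) → L'),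
      Gen L' w' y' → (∀ P, IsForm P → Q P → aeval y' P = 0) →
      SubVar (fun i : Fin k => map σ (dform m (c i))) L' w' y' := by
    intro L' _ _ w' y' hg hv
    exact ⟨hg.ne, fun i => hv _ (hform i) (hQc i), hg.gen, hg.dim⟩
  rcases hC N Q hQ L w _ (hE.gen σ hy) hcon with ⟨H, hH, hH0, hHI⟩ |
    ⟨L', iF, iA, w', y', hgen, hw', hI', hle, ⟨P, hP, hP0, hP1⟩, hcomp⟩
  · exact hno L w _ hw (hsub L w _ (hE.gen σ hy) hcon) hgt ⟨hcon, H, hH, hH0, hHI⟩
  · have hs := hsub L' w' y' hgen hI'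
    by_cases hg : GeneralType ℂ L' w'
    · exact hno L' w' y' hw' hs hg ⟨hI', hcomp⟩
    · obtain ⟨ζ, x, s, hζ, hx, hs0, hxF, hyx⟩ := hE.sub ℂ σ L' w' y' hgen.ne hgen.gen hgen.dim hg
        (fun i => by
          have h1 := hs.mem i
          unfold val at h1
          rw [aeval_def, eval₂_map] at h1
          exact h1)
      have hζ0 : ∀ j, ζ j ≠ 0 := by
        intro j h0
        have := hζ j
        rw [h0, zero_pow hm] at this
        exact zero_ne_one this
      -- if `P` vanishes at the point of `X`, then it vanishes at the twist of `y'`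
      have h1 : ∀ P, IsForm P → aeval (vals ((algebraMap ℂ L).comp σ) φ y) P = 0 →
          aeval y' (twist (fun j => (ζ j)⁻¹) P) = 0 := by
        intro P hP h0
        have h2 := hirr (pullφ σ φ P) (hE.pull_form σ hP) (by rw [pullφ_eval]; exact h0) L' x hxF
        rw [pullφ_eval] at h2
        rw [twist_eval]
        have e1 : (fun j => algebraMap ℂ L' (ζ j)⁻¹ * y' j) =
            fun j => s * vals ((algebraMap ℂ L').comp σ) φ x j := by
          funext j
          rw [hyx j, map_inv₀]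
          have : algebraMap ℂ L' (ζ j) ≠ 0 := (_root_.map_ne_zero _).2 (hζ0 j)
          field_simp
        rw [e1, form_smul hP hs0]
        exact h2
      have h2 : ∀ (r : ℕ) (P : MvPolynomial (Fin (N + 1)) ℂ), IsForm P → aeval y' P = 0 →
          aeval y' (twist (fun j => (ζ j)⁻¹ ^ r) P) = 0 := by
        intro r
        induction r with
        | zero =>
          intro P hP h0
          rw [twist_eval]
          simpa using h0
        | succ r ih =>
          intro P hP h0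
          have h3 := ih _ (twist_form (fun j => (ζ j)⁻¹) hP) (h1 P hP (hle P hP h0))
          rw [twist_eval, twist_eval] at h3
          rw [twist_eval]
          have e1 : (fun j => algebraMap ℂ L' ((ζ j)⁻¹ ^ (r + 1)) * y' j) =
              fun j => algebraMap ℂ L' (ζ j)⁻¹ * (algebraMap ℂ L' ((ζ j)⁻¹ ^ r) * y' j) := by
            funext j
            rw [pow_succ, map_mul]
            ring
          rw [e1]
          exact h3
      apply hP1
      obtain ⟨r, hr⟩ : ∃ r, m = r + 1 := ⟨m - 1, by omega⟩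
      have h3 := h2 r _ (twist_form (fun j => (ζ j)⁻¹) hP) (h1 P hP hP0)
      rw [twist_eval, twist_eval] at h3
      have e1 : (fun j => algebraMap ℂ L' (ζ j)⁻¹ * (algebraMap ℂ L' ((ζ j)⁻¹ ^ r) * y' j)) =
          y' := by
        funext j
        rw [← mul_assoc, ← map_mul]
        have : (ζ j)⁻¹ * (ζ j)⁻¹ ^ r = 1 := by
          rw [← pow_succ', ← hr, inv_pow, hζ, inv_one]
        rw [this, map_one, one_mul]
      rwa [e1] at h3

end gen

end Pool.Agent.H441.UA
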