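import Pool.Agent.H441.UA.Rel
import Pool.Agent.H441.DQ.Emb
import Pool.Agent.H441.AC.Main

/-!
Embedding of projective varieties over a field in intersections of diagonal hypersurfaces.
-/

set_option autoImplicit false

namespace Pool.Agent.H441.UA

open MvPolynomial
open Pool.Agent.N254.SQ hiding Extends lin
open Pool.Agent.W602.GT (GeneralType coords)
open Pool.Agent.H441.DF (bound diagonal diag_eval₂ diag_aeval diag_hom exists_mon exists_cut Cut)
open Pool.Agent.H441.DQ (Box lins lins_ne lins_smul lins_prop lins_unit linK dform dform_eval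
  dform_hom vec vec_eval rel_small box_unit pts_iff eqs_iff)

/-- the values of the forms `φ j` -/
noncomputable def vals {K Ω : Type} [Field K] [Field Ω] (τ : K →+* Ω) {n N : ℕ}
    (φ : Fin (N + 1) → MvPolynomial (Fin (n + 1)) K) (x : Fin (n + 1) → Ω) : Fin (N + 1) → Ω :=
  fun j => eval₂ τ x (φ j)

/-- the facts on the embedding -/
structure FEmb {K : Type} [Field K] (m : ℕ) {n N k : ℕ} {ι κ γ : Type}
    (F : ι → MvPolynomial (Fin (n + 1)) K) (T : κ → MvPolynomial (Fin (n + 1)) K)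
    (G : γ → MvPolynomial (Fin (n + 1)) K) (φ : Fin (N + 1) → MvPolynomial (Fin (n + 1)) K)
    (c : Fin k → Fin (N + 1) → K) (I J : Set (Fin (N + 1))) : Prop where
  mono : ∃ e, 1 ≤ e ∧ (∀ j, (φ j).IsHomogeneous e) ∧
    ∀ α : Fin (n + 1) → ℕ, ∑ i, α i = e → ∃ j, φ j = ∏ i, X i ^ α i
  ne : ∀ (Ω : Type) [Field Ω] (τ : K →+* Ω) (x : Fin (n + 1) → Ω), x ≠ 0 → vals τ φ x ≠ 0
  inj : ∀ (Ω : Type) [Field Ω] (τ : K →+* Ω) (x x' : Fin (n + 1) → Ω) (s : Ω), x ≠ 0 →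
    vals τ φ x = s • vals τ φ x' → ∃ t : Ω, x = t • x'
  pts : ∀ (Ω : Type) [Field Ω] (τ : K →+* Ω) (x : Fin (n + 1) → Ω), x ≠ 0 →
    ((∀ i, eval₂ τ x (F i) = 0) ↔ ∀ i, eval₂ τ (vals τ φ x) (dform m (c i)) = 0)
  onT : ∀ (Ω : Type) [Field Ω] (τ : K →+* Ω) (x : Fin (n + 1) → Ω), x ≠ 0 →
    ((∃ i ∈ I, vals τ φ x i ≠ 0) ↔ ∃ k, eval₂ τ x (T k) ≠ 0)
  onG : ∀ (Ω : Type) [Field Ω] (τ : K →+* Ω) (x : Fin (n + 1) → Ω), x ≠ 0 →
    ((∀ j ∈ J, vals τ φ x j = 0) ↔ ∀ l, eval₂ τ x (G l) = 0)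
  curves : ∀ (σ : K →+* ℂ) (f : ℂ → Fin (N + 1) → ℂ), Differentiable ℂ f → (∀ z, f z ≠ 0) →
    (∀ z i, eval₂ σ (f z) (dform m (c i)) = 0) → (∃ z w, ∀ c : ℂ, f w ≠ c • f z) →
    ∃ (ζ : Fin (N + 1) → ℂ) (x : ℂ → Fin (n + 1) → ℂ), (∀ j, ζ j ^ m = 1) ∧
      Differentiable ℂ x ∧ (∀ z, x z ≠ 0) ∧ (∀ z i, eval₂ σ (x z) (F i) = 0) ∧
      ∀ z j, f z j = ζ j * vals σ φ (x z) j
  sub : ∀ (E : Type) [Field E] [IsAlgClosed E] [CharZero E] (σ : K →+* E) (L : Type) [Field L]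
    [Algebra E L] (w : ℕ) (y : Fin (N + 1) → L), y ≠ 0 → coords E y = ⊤ →
    Algebra.trdeg E L = w → ¬ GeneralType E L w →
    (∀ i, eval₂ ((algebraMap E L).comp σ) y (dform m (c i)) = 0) →
    ∃ (ζ : Fin (N + 1) → E) (x : Fin (n + 1) → L) (s : L), (∀ j, ζ j ^ m = 1) ∧ x ≠ 0 ∧ s ≠ 0 ∧
      (∀ i, eval₂ ((algebraMap E L).comp σ) x (F i) = 0) ∧
      ∀ j, y j = s * (algebraMap E L (ζ j) * vals ((algebraMap E L).comp σ) φ x j)
  alg : ∀ (E : Type) [Field E] [IsAlgClosed E] [CharZero E], ∃ C : ℕ, ∀ (σ : K →+* E) (L : Type)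
    [Field L] [Algebra E L] [FF.IsFF E L] (y : Fin (N + 1) → L), y ≠ 0 →
    (∀ i, eval₂ ((algebraMap E L).comp σ) y (dform m (c i)) = 0) →
    Pool.Agent.W603.PV.pht E y ≤ C * max (Pool.Agent.W603.LV.canDeg E L) 0 ∨
    ∃ (ζ : Fin (N + 1) → E) (x : Fin (n + 1) → L) (s : L), (∀ j, ζ j ^ m = 1) ∧ x ≠ 0 ∧ s ≠ 0 ∧
      (∀ i, eval₂ ((algebraMap E L).comp σ) x (F i) = 0) ∧
      ∀ j, y j = s * (algebraMap E L (ζ j) * vals ((algebraMap E L).comp σ) φ x j)
  copies : ∃ (κ₁ : Type) (_ : Finite κ₁) (Z : κ₁ → MvPolynomial (Fin (N + 1)) K),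
    (∀ s, ∃ d, (Z s).IsHomogeneous d) ∧
    (∀ (Ω : Type) [Field Ω] (τ : K →+* Ω) (x : Fin (n + 1) → Ω) (y : Fin (N + 1) → Ω) (t : Ω),
      (∀ i, eval₂ τ x (F i) = 0) → (∀ j, y j ^ m = t * vals τ φ x j ^ m) →
        ∀ s, eval₂ τ y (Z s) = 0) ∧
    ∀ (Ω : Type) [Field Ω] (τ : K →+* Ω) (y : Fin (N + 1) → Ω), y ≠ 0 →
      (∀ i, eval₂ τ y (dform m (c i)) = 0) → (∀ s, eval₂ τ y (Z s) = 0) →
      ∃ (x : Fin (n + 1) → Ω) (t : Ω), x ≠ 0 ∧ t ≠ 0 ∧ (∀ i, eval₂ τ x (F i) = 0) ∧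
        ∀ j, y j ^ m = t * vals τ φ x j ^ m

/-- the form with the coefficients `a` in the monomials given by `v` -/
noncomputable def mform {K : Type} [Field K] {n M : ℕ} (v : Fin (M + 1) → Fin (n + 1) → ℕ)
    (a : Fin (M + 1) → K) : MvPolynomial (Fin (n + 1)) K := ∑ l, C (a l) * ∏ i, X i ^ v l i

theorem mform_eval {K Ω : Type} [Field K] [Field Ω] (τ : K →+* Ω) {n M : ℕ}
    (v : Fin (M + 1) → Fin (n + 1) → ℕ) (a : Fin (M + 1) → K) (x : Fin (n + 1) → Ω) :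
    eval₂ τ x (mform v a) = ∑ l, τ (a l) * ver v x l := by
  unfold mform
  rw [← coe_eval₂Hom, map_sum]
  refine Finset.sum_congr rfl fun l _ => ?_
  rw [map_mul, map_prod, coe_eval₂Hom, eval₂_C]
  congr 1
  refine Finset.prod_congr rfl fun i _ => ?_
  rw [eval₂_pow, eval₂_X]

theorem prodX_hom {K : Type} [Field K] {n : ℕ} (α : Fin (n + 1) → ℕ) :
    (∏ i, X i ^ α i : MvPolynomial (Fin (n + 1)) K).IsHomogeneous (∑ i, α i) := by
  have h1 : (∏ i, X i ^ α i : MvPolynomial (Fin (n + 1)) K).IsHomogeneous (∑ i, 1 * α i) :=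
    IsHomogeneous.prod _ _ _ fun i _ => (isHomogeneous_X K i).pow _
  simpa only [one_mul] using h1

theorem mform_hom {K : Type} [Field K] {n M e : ℕ} {v : Fin (M + 1) → Fin (n + 1) → ℕ}
    (hv : Mon n M e v) (a : Fin (M + 1) → K) : (mform v a).IsHomogeneous e := by
  unfold mform
  apply IsHomogeneous.sum
  intro l _
  have h1 := (isHomogeneous_C (Fin (n + 1)) (a l)).mul (prodX_hom (K := K) (v l))
  rwa [zero_add, hv.deg] at h1

theorem mform_single {K : Type} [Field K] {n M : ℕ} (v : Fin (M + 1) → Fin (n + 1) → ℕ)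
    (l : Fin (M + 1)) : mform (K := K) v (Pi.single l 1) = ∏ i, X i ^ v l i := by
  unfold mform
  rw [Finset.sum_eq_single l]
  · rw [Pi.single_eq_same, C_1, one_mul]
  · intro l' _ hl'
    rw [Pi.single_eq_of_ne hl', C_0, zero_mul]
  · intro h
    exact absurd (Finset.mem_univ l) h

/-- the embedding -/
theorem femb_of {K : Type} [Field K] [CharZero K] {m n M e N k B : ℕ} (hm : 2 ≤ m) (he : 1 ≤ e)
    {v : Fin (M + 1) → Fin (n + 1) → ℕ} (hv : Mon n M e v) {ι ι' κ γ : Type} [Finite ι']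
    {F : ι → MvPolynomial (Fin (n + 1)) K} {T : κ → MvPolynomial (Fin (n + 1)) K}
    {G : γ → MvPolynomial (Fin (n + 1)) K} (hF : ∀ i, ∃ d, (F i).IsHomogeneous d)
    (hT : ∀ k, (T k).IsHomogeneous e) (hG : ∀ k, (G k).IsHomogeneous e)
    {q : ι' → MvPolynomial (Fin (M + 1)) K}
    (hC : Cut v F q) {A : Fin (N + 1) → Fin (M + 1) → K}
    (ha : Box B A) (hB1 : bound m ≤ B) (hB2 : bd (M + 1) m ≤ B)
    {c : Fin k → Fin (N + 1) → K} (hc : Submodule.span K (Set.range c) = DQ.rel m A q)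
    {I J : Set (Fin (N + 1))} (hI1 : ∀ i ∈ I, ∃ k, A i = vec v (T k))
    (hI2 : ∀ k, ∃ i ∈ I, A i = vec v (T k)) (hJ1 : ∀ i ∈ J, ∃ k, A i = vec v (G k))
    (hJ2 : ∀ k, ∃ i ∈ J, A i = vec v (G k)) :
    FEmb m F T G (fun j => mform v (A j)) c I J := by
  classical
  have hBm := DQ.bound_ge hm hB1
  have hX : ∀ (Ω : Type) [Field Ω] (τ : K →+* Ω) (y : Fin (N + 1) → Ω) (i : Fin k),
      eval₂ τ y (dform m (c i)) = eval₂ τ y (diagonal m (c i)) := by
    intro Ω _ τ y i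
    rw [dform_eval, diag_eval₂]
  have hval : ∀ (Ω : Type) [Field Ω] (τ : K →+* Ω) (x : Fin (n + 1) → Ω),
      vals τ (fun j => mform v (A j)) x = lins τ A (ver v x) := by
    intro Ω _ τ x
    funext j
    exact mform_eval τ v (A j) x
  have hvec : ∀ (Ω : Type) [Field Ω] (τ : K →+* Ω) (x : Fin (n + 1) → Ω) (j : Fin (N + 1))
      (P : MvPolynomial (Fin (n + 1)) K), P.IsHomogeneous e → A j = vec v P →
      lins τ A (ver v x) j = eval₂ τ x P := by
    intro Ω _ τ x j P hP hAj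
    unfold lins
    rw [hAj]
    have := vec_eval (R := K) hv hP τ x
    simpa using this
  -- the copies
  have hcpy : ∀ (E : Type) [Field E] [IsAlgClosed E] [CharZero E] (σ : K →+* E) (L : Type)
      [Field L] [Algebra E L] (y : Fin (N + 1) → L), y ≠ 0 →
      (∀ i, eval₂ ((algebraMap E L).comp σ) y (dform m (c i)) = 0) →
      (∃ (ζ : Fin (N + 1) → E) (x : Fin (M + 1) → L), (∀ j, ζ j ^ m = 1) ∧
        ∀ j, y j = algebraMap E L (ζ j) * lins ((algebraMap E L).comp σ) A x j) →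
      ∃ (ζ : Fin (N + 1) → E) (x : Fin (n + 1) → L) (s : L), (∀ j, ζ j ^ m = 1) ∧ x ≠ 0 ∧
        s ≠ 0 ∧ (∀ i, eval₂ ((algebraMap E L).comp σ) x (F i) = 0) ∧
        ∀ j, y j = s * (algebraMap E L (ζ j) *
          vals ((algebraMap E L).comp σ) (fun j => mform v (A j)) x j) := by
    intro E _ _ _ σ L _ _ y hy0 hyX hcop
    let _ : Algebra K L := ((algebraMap E L).comp σ).toAlgebra
    have hyX' : ∀ i, aeval y (diagonal m (c i)) = 0 := by
      intro i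
      have := hyX i
      rw [hX] at this
      exact this
    obtain ⟨ζ, x, hζ, hyx⟩ := hcop
    have hx0 : x ≠ 0 := by
      rintro rfl
      apply hy0
      funext j
      rw [hyx j]
      simp [lins]
    have hq : ∀ i, aeval x (q i) = 0 := by
      rw [DQ.pts_rel hm ha hBm.1 hC.hom]
      intro c' hc'
      have h1 := (eqs_iff hc y).1 hyX' c' hc'
      rw [← h1]
      refine Finset.sum_congr rfl fun j _ => ?_
      rw [hyx j, mul_pow, ← map_pow, hζ, map_one, one_mul]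
      rfl
    obtain ⟨x', a, b, hxa, hxb, hxc, hxF⟩ := hC.inv L x hx0 hq
    have hx'0 : x' ≠ 0 := by
      rintro rfl
      exact zero_ne_one hxa
    refine ⟨ζ, x', x b, hζ, hx'0, hxb, hxF, fun j => ?_⟩
    rw [hval, hyx j]
    have e1 : x = x b • ver v x' := funext fun l => hxc l
    conv_lhs => rw [e1]
    rw [lins_smul, Pi.smul_apply, smul_eq_mul]
    ring
  refine ⟨⟨e, he, fun j => mform_hom hv _, ?_⟩, ?_, ?_, ?_, ?_, ?_, ?_, ?_, ?_, ?_⟩
  · intro α hα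
    obtain ⟨l, hl⟩ := hv.surj α hα
    obtain ⟨j, hj⟩ := box_unit ha hBm.2 l
    refine ⟨j, ?_⟩
    rw [hj, mform_single, hl]
  · intro Ω _ τ x hx
    rw [hval]
    exact lins_ne τ ha hBm.2 (ver_ne_zero hv he hx)
  · intro Ω _ τ x x' s hx h
    rw [hval, hval] at h
    exact ver_prop hv he hx (lins_prop τ ha hBm.2 h)
  · intro Ω _ τ x hx
    rw [hval]
    simp only [hX]
    let _ : Algebra K Ω := τ.toAlgebra
    exact pts_iff hm ha hBm.1 hC hv he hF hc hx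
  · intro Ω _ τ x hx
    rw [hval]
    constructor
    · rintro ⟨i, hi, hi0⟩
      obtain ⟨k, hk⟩ := hI1 i hi
      exact ⟨k, by rwa [hvec Ω τ x i _ (hT k) hk] at hi0⟩
    · rintro ⟨k, hk⟩
      obtain ⟨j, hjI, hj⟩ := hI2 k
      exact ⟨j, hjI, by rwa [hvec Ω τ x j _ (hT k) hj]⟩
  · intro Ω _ τ x hx
    rw [hval]
    constructor
    · intro h l
      obtain ⟨j, hjJ, hj⟩ := hJ2 l
      rw [← hvec Ω τ x j _ (hG l) hj]
      exact h j hjJ
    · intro h j hjJ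
      obtain ⟨l, hl⟩ := hJ1 j hjJ
      rw [hvec Ω τ x j _ (hG l) hl]
      exact h l
  · intro σ f hf hf0 hfX hE
    obtain ⟨ζ, x, hζ, hxd, hx0, hxF, hfx⟩ := DQ.entire hm ha hB1 hC hv he hF hc σ hf hf0
      (fun z i => by
        rw [← hX]
        exact hfX z i) hE
    refine ⟨ζ, x, hζ, hxd, hx0, hxF, fun z j => ?_⟩
    rw [hval]
    exact hfx z j
  · intro E _ _ _ σ L _ _ w y hy0 hgen htr hgt hyX
    let _ : Algebra K L := ((algebraMap E L).comp σ).toAlgebra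
    have hyX' : ∀ i, aeval y (diagonal m (c i)) = 0 := by
      intro i
      have := hyX i
      rw [hX] at this
      exact this
    exact hcpy E σ L y hy0 hyX (sub_rel σ hm ha hB2 q hgen htr hgt
      (fun c' hc' => (eqs_iff hc y).1 hyX' c' hc'))
  · intro E _ _ _
    obtain ⟨C, hC'⟩ := AC.alg_rel (k := E) hm ha hB2
    refine ⟨C, fun σ L _ _ _ y hy0 hyX => ?_⟩
    rcases hC' σ L y hy0 (fun c' hc' => by
        let _ : Algebra K L := ((algebraMap E L).comp σ).toAlgebra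
        have hyX' : ∀ i, aeval y (diagonal m (c i)) = 0 := by
          intro i
          have := hyX i
          rw [hX] at this
          exact this
        exact (eqs_iff hc y).1 hyX' c' (by
          rw [DQ.mem_rel, hc']
          exact Submodule.zero_mem _)) with h | h
    · exact Or.inl h
    · exact Or.inr (hcpy E σ L y hy0 hyX h)
  · obtain ⟨κ₁, _, Z, hZ, hZa, hZb⟩ := DQ.zeq hm ha hBm.1 q hC.hom
    refine ⟨κ₁, inferInstance, Z, fun s => ⟨_, hZ s⟩, ?_, ?_⟩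
    · intro Ω _ τ x y t hxF hy s
      rw [hval] at hy
      let _ : Algebra K Ω := τ.toAlgebra
      exact hZa Ω (ver v x) y t (hC.fwd Ω x hxF) hy s
    · intro Ω _ τ y hy0 hyX hyZ
      let _ : Algebra K Ω := τ.toAlgebra
      have h2 : ∀ i, aeval y (diagonal m (c i)) = 0 := by
        intro i
        have := hyX i
        rw [hX] at this
        exact this
      obtain ⟨w, t, hw, ht, hq, hyw⟩ := hZb Ω y hy0 (fun b hb => (eqs_iff hc y).1 h2 b (by
        rw [DQ.mem_rel, hb]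
        exact Submodule.zero_mem _)) (fun s => hyZ s)
      obtain ⟨x, a, b, hxa, hwb, hwc, hxF⟩ := hC.inv Ω w hw hq
      have hx0 : x ≠ 0 := by
        rintro rfl
        exact zero_ne_one hxa
      have hwx : w = w b • ver v x := funext fun l => hwc l
      refine ⟨x, t * w b ^ m, hx0, mul_ne_zero ht (pow_ne_zero _ hwb), hxF, fun j => ?_⟩
      have e1 : lins (algebraMap K Ω) A w j = w b * lins (algebraMap K Ω) A (ver v x) j := by
        conv_lhs => rw [hwx]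
        rw [lins_smul, Pi.smul_apply, smul_eq_mul]
      rw [hyw j, e1, mul_pow, ← mul_assoc, hval]
      rfl

/-- the multiples of forms of a given degree -/
theorem exists_mult {K : Type} [Field K] {n e : ℕ} {κ : Type} [Finite κ]
    (T : κ → MvPolynomial (Fin (n + 1)) K) (hT : ∀ k, ∃ d ≤ e, (T k).IsHomogeneous d) :
    ∃ (κ' : Type) (_ : Finite κ') (T' : κ' → MvPolynomial (Fin (n + 1)) K),
      (∀ k, (T' k).IsHomogeneous e) ∧
      (∀ (Ω : Type) [Field Ω] (τ : K →+* Ω) (x : Fin (n + 1) → Ω), x ≠ 0 →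
        ((∃ k, eval₂ τ x (T' k) ≠ 0) ↔ ∃ k, eval₂ τ x (T k) ≠ 0)) := by
  classical
  choose d hd hTd using hT
  let κ' : Type := Σ k : κ, {α : Fin (n + 1) → Fin (e + 1) // ∑ j, (α j : ℕ) = e - d k}
  let T' : κ' → MvPolynomial (Fin (n + 1)) K := fun p => T p.1 * ∏ j, X j ^ (p.2.1 j : ℕ)
  have hev : ∀ (Ω : Type) [Field Ω] (τ : K →+* Ω) (x : Fin (n + 1) → Ω) (p : κ'),
      eval₂ τ x (T' p) = eval₂ τ x (T p.1) * ∏ j, x j ^ (p.2.1 j : ℕ) := by
    intro Ω _ τ x p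
    simp only [T']
    rw [eval₂_mul, ← coe_eval₂Hom, map_prod]
    simp
  -- powers of one variable
  have hpow : ∀ (k : κ) (j : Fin (n + 1)), ∃ p : κ', p.1 = k ∧ ∀ (Ω : Type) [Field Ω]
      (x : Fin (n + 1) → Ω), ∏ i, x i ^ (p.2.1 i : ℕ) = x j ^ (e - d k) := by
    intro k j
    refine ⟨⟨k, ⟨fun i => if i = j then ⟨e - d k, by omega⟩ else 0, ?_⟩⟩, rfl, ?_⟩
    · rw [Finset.sum_eq_single j]
      · simp
      · intro i _ hi
        simp [hi]
      · intro h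
        exact absurd (Finset.mem_univ j) h
    · intro Ω _ x
      simp only
      rw [Finset.prod_eq_single j]
      · simp
      · intro i _ hi
        simp [hi]
      · intro h
        exact absurd (Finset.mem_univ j) h
  refine ⟨κ', inferInstance, T', ?_, ?_⟩
  · rintro ⟨k, α, hα⟩
    have h1 := (hTd k).mul (prodX_hom (K := K) fun i => (α i : ℕ))
    have h2 : d k + ∑ i, (α i : ℕ) = e := by
      rw [hα]
      have := hd k
      omega
    rwa [h2] at h1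
  · intro Ω _ τ x hx
    constructor
    · rintro ⟨p, hp⟩
      rw [hev] at hp
      exact ⟨p.1, left_ne_zero_of_mul hp⟩
    · rintro ⟨k, hk⟩
      obtain ⟨j, hj⟩ : ∃ j, x j ≠ 0 := by
        by_contra hcon
        push Not at hcon
        exact hx (funext hcon)
      obtain ⟨p, hp1, hp2⟩ := hpow k j
      refine ⟨p, ?_⟩
      rw [hev, hp2, hp1]
      exact mul_ne_zero hk (pow_ne_zero _ hj)

/-- equivalent forms -/
theorem FEmb.congr {K : Type} [Field K] {m n N k : ℕ} {ι κ κ' γ γ' : Type}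
    {F : ι → MvPolynomial (Fin (n + 1)) K} {T : κ → MvPolynomial (Fin (n + 1)) K}
    {G : γ → MvPolynomial (Fin (n + 1)) K} {T' : κ' → MvPolynomial (Fin (n + 1)) K}
    {G' : γ' → MvPolynomial (Fin (n + 1)) K} {φ : Fin (N + 1) → MvPolynomial (Fin (n + 1)) K}
    {c : Fin k → Fin (N + 1) → K} {I J : Set (Fin (N + 1))} (hE : FEmb m F T' G' φ c I J)
    (h1 : ∀ (Ω : Type) [Field Ω] (τ : K →+* Ω) (x : Fin (n + 1) → Ω), x ≠ 0 →
        ((∃ k, eval₂ τ x (T' k) ≠ 0) ↔ ∃ k, eval₂ τ x (T k) ≠ 0))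
    (h3 : ∀ (Ω : Type) [Field Ω] (τ : K →+* Ω) (x : Fin (n + 1) → Ω), x ≠ 0 →
        ((∀ l, eval₂ τ x (G' l) = 0) ↔ ∀ l, eval₂ τ x (G l) = 0)) : FEmb m F T G φ c I J := by
  refine ⟨hE.mono, hE.ne, hE.inj, hE.pts, ?_, ?_, hE.curves, hE.sub, hE.alg, hE.copies⟩
  · intro Ω _ τ x hx
    rw [hE.onT Ω τ x hx, h1 Ω _ x hx]
  · intro Ω _ τ x hx
    rw [hE.onG Ω τ x hx, h3 Ω _ x hx]

/-- **The embedding.** -/
theorem exists_femb {K : Type} [Field K] [CharZero K] [Algebra ℚ K] (D : Set K)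
    (h1D : (1 : K) ∈ D) (hneg : ∀ x ∈ D, -x ∈ D) (hD : Submodule.span ℚ D = ⊤) {m : ℕ}
    (hm : 2 ≤ m) {n : ℕ} {ι κ γ : Type} [Finite ι] [Finite κ] [Finite γ]
    (F : ι → MvPolynomial (Fin (n + 1)) K) (T : κ → MvPolynomial (Fin (n + 1)) K)
    (G : γ → MvPolynomial (Fin (n + 1)) K) (hF : ∀ i, ∃ e, (F i).IsHomogeneous e)
    (hT : ∀ i, ∃ e, (T i).IsHomogeneous e) (hG : ∀ i, ∃ e, (G i).IsHomogeneous e) :
    ∃ (N k : ℕ) (φ : Fin (N + 1) → MvPolynomial (Fin (n + 1)) K)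
      (c : Fin k → Fin (N + 1) → K) (I J : Set (Fin (N + 1))),
      (∀ i j, c i j = 0 ∨ c i j ∈ D) ∧ FEmb m F T G φ c I J := by
  classical
  obtain ⟨e, he, hdF, hdT, hdG⟩ : ∃ e, 1 ≤ e ∧ (∀ i, ∃ d ≤ e, (F i).IsHomogeneous d) ∧
      (∀ i, ∃ d ≤ e, (T i).IsHomogeneous d) ∧ (∀ i, ∃ d ≤ e, (G i).IsHomogeneous d) := by
    have := Fintype.ofFinite ι
    have := Fintype.ofFinite κ
    have := Fintype.ofFinite γ
    choose eF heF using hF
    choose eT heT using hT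
    choose eG heG using hG
    refine ⟨1 + (Finset.univ.sup eF + (Finset.univ.sup eT + Finset.univ.sup eG)), by omega,
      fun i => ⟨eF i, ?_, heF i⟩, fun i => ⟨eT i, ?_, heT i⟩, fun i => ⟨eG i, ?_, heG i⟩⟩
    · have := Finset.le_sup (f := eF) (Finset.mem_univ i)
      omega
    · have := Finset.le_sup (f := eT) (Finset.mem_univ i)
      omega
    · have := Finset.le_sup (f := eG) (Finset.mem_univ i)
      omega
  obtain ⟨γ', _, G', hG'h, hG'e⟩ := exists_mult G hdG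
  obtain ⟨κ', _, T', hT'h, hT'e⟩ := exists_mult T hdT
  obtain ⟨M, v, hv⟩ := exists_mon n e
  obtain ⟨ι', _, q, hC⟩ := exists_cut hv he F hdF
  -- the linear forms
  obtain ⟨N, A, k, c, ha, hb, -, hcD, hc⟩ := rel_small (K := K) D h1D hneg hD (m := m)
    (bound m + bd (M + 1) m)
    (κ := κ' ⊕ γ') (Sum.elim (fun k => vec v (T' k)) fun l => vec v (G' l)) q
  have hE := femb_of hm he hv hF hT'h hG'h hC ha (Nat.le_add_right _ _) (Nat.le_add_left _ _) hc
    (I := {j | ∃ k, A j = vec v (T' k)}) (J := {j | ∃ l, A j = vec v (G' l)}) (fun i hi => hi)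
    (fun k => by
      obtain ⟨j, -, hj⟩ := hb (Sum.inl k)
      exact ⟨j, ⟨k, hj⟩, hj⟩) (fun i hi => hi)
      (fun l => by
        obtain ⟨j, -, hj⟩ := hb (Sum.inr l)
        exact ⟨j, ⟨l, hj⟩, hj⟩)
  exact ⟨N, k, _, c, _, _, hcD, hE.congr hT'e fun Ω _ τ x hx => by
    rw [← not_iff_not]
    have := hG'e Ω τ x hx
    push Not
    exact this⟩

end Pool.Agent.H441.UA
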