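import Pool.Graph.R_seed8.Y190.BV.Spec
import Pool.Agent.H441.UA.Alg

/-!
Products of translates of polynomials over a function field whose values at constants are
`m`-th powers.
-/

set_option autoImplicit false

namespace Pool.Agent.H441.UA

open Polynomial Pool.Agent.W603.LV Pool.Agent.W602.GT Pool.Agent.Y190.BV

section shift

variable {K : Type} [Field K] [CharZero K]

/-- a translation which makes a polynomial prime to others -/
theorem exists_one {R m : ℕ} (g : Fin R → K[X]) (hg : ∀ i, g i ≠ 0) (hgd : ∀ i, (g i).natDegree ≤ m)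
    (h : K[X]) (h0 : h ≠ 0) (hd : h.natDegree ≤ m) : ∃ t : ℕ, t ≤ R * m ^ 2 ∧
      ∀ i, IsCoprime (g i) (taylor (t : K) h) := by
  classical
  let Ω := AlgebraicClosure K
  let rt : K[X] → Finset Ω := fun p => (p.map (algebraMap K Ω)).roots.toFinset
  have hrt : ∀ p : K[X], p ≠ 0 → ∀ a : Ω, aeval a p = 0 → a ∈ rt p := by
    intro p hp a ha
    rw [Multiset.mem_toFinset, mem_roots (map_ne_zero hp), IsRoot, eval_map_algebraMap]
    exact ha
  have hcard : ∀ p : K[X], p.natDegree ≤ m → (rt p).card ≤ m := by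
    intro p hp
    refine (Multiset.toFinset_card_le _).trans ((card_roots' _).trans ?_)
    rw [natDegree_map]
    exact hp
  let B : Finset Ω := Finset.univ.biUnion fun i : Fin R =>
    (rt h ×ˢ rt (g i)).image fun p => p.1 - p.2
  have hB : B.card ≤ R * m ^ 2 := by
    refine Finset.card_biUnion_le.trans ?_
    calc ∑ i : Fin R, ((rt h ×ˢ rt (g i)).image fun p => p.1 - p.2).card
        ≤ ∑ _i : Fin R, m ^ 2 := by
          refine Finset.sum_le_sum fun i _ => ?_
          refine Finset.card_image_le.trans ?_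
          rw [Finset.card_product, sq]
          exact Nat.mul_le_mul (hcard _ hd) (hcard _ (hgd i))
      _ = R * m ^ 2 := by rw [Finset.sum_const, Finset.card_univ, Fintype.card_fin, smul_eq_mul]
  have hch : CharZero Ω := charZero_of_injective_algebraMap (algebraMap K Ω).injective
  obtain ⟨t, ht, htB⟩ : ∃ t : ℕ, t ≤ R * m ^ 2 ∧ (t : Ω) ∉ B := by
    by_contra hcon
    push Not at hcon
    have h1 : ((Finset.range (R * m ^ 2 + 1)).image fun t : ℕ => (t : Ω)) ⊆ B := by
      intro x hx
      obtain ⟨t, ht, rfl⟩ := Finset.mem_image.1 hx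
      rw [Finset.mem_range] at ht
      exact hcon t (by omega)
    have h2 := Finset.card_le_card h1
    rw [Finset.card_image_of_injective _ Nat.cast_injective, Finset.card_range] at h2
    omega
  refine ⟨t, ht, fun i => ?_⟩
  rw [isCoprime_iff_aeval_ne_zero_of_isAlgClosed K Ω]
  intro a
  by_contra hcon
  push Not at hcon
  obtain ⟨h1, h2⟩ := hcon
  apply htB
  refine Finset.mem_biUnion.2 ⟨i, Finset.mem_univ i, Finset.mem_image.2 ⟨(a + (t : Ω), a), ?_, ?_⟩⟩
  · rw [Finset.mem_product]
    refine ⟨hrt h h0 _ ?_, hrt (g i) (hg i) _ h1⟩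
    rw [taylor_apply, aeval_comp] at h2
    simpa using h2
  · simp

/-- translations which make polynomials pairwise coprime -/
theorem exists_shift {m : ℕ} : ∀ (R : ℕ) (h : Fin R → K[X]), (∀ i, h i ≠ 0) →
    (∀ i, (h i).natDegree ≤ m) → ∃ T : Fin R → ℕ, (∀ i, T i ≤ R * m ^ 2) ∧
      ∀ i j, i ≠ j → IsCoprime (taylor (T i : K) (h i)) (taylor (T j : K) (h j)) := by
  intro R
  induction R with
  | zero => exact fun h _ _ => ⟨fun i => i.elim0, fun i => i.elim0, fun i => i.elim0⟩
  | succ R ih =>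
    intro h h0 hd
    obtain ⟨T, hT, hTc⟩ := ih (fun i => h i.castSucc) (fun i => h0 _) (fun i => hd _)
    obtain ⟨t, ht, htc⟩ := exists_one (m := m) (fun i => taylor (T i : K) (h i.castSucc))
      (fun i => by rw [Ne, taylor_eq_zero]; exact h0 _) (fun i => by
        rw [natDegree_taylor]; exact hd _) (h (Fin.last R)) (h0 _) (hd _)
    have e1 : R * m ^ 2 ≤ (R + 1) * m ^ 2 := Nat.mul_le_mul_right _ (Nat.le_succ R)
    obtain ⟨T', hT1, hT2⟩ : ∃ T' : Fin (R + 1) → ℕ, T' (Fin.last R) = t ∧
        ∀ i : Fin R, T' i.castSucc = T i :=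
      ⟨Fin.lastCases (motive := fun _ => ℕ) t T, by simp, fun i => by simp⟩
    refine ⟨T', fun i => ?_, fun i j => ?_⟩
    · refine Fin.lastCases ?_ (fun i => ?_) i
      · rw [hT1]
        exact ht.trans e1
      · rw [hT2]
        exact (hT i).trans e1
    · refine Fin.lastCases ?_ (fun i => ?_) i <;> refine Fin.lastCases ?_ (fun j => ?_) j
      · exact fun hh => absurd rfl hh
      · intro _
        rw [hT1, hT2]
        exact (htc j).symm
      · intro _
        rw [hT1, hT2]
        exact htc i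
      · intro hij
        rw [hT2, hT2]
        exact hTc i j (fun hh => hij (by rw [hh]))

end shift

theorem tay_irr {K : Type} [Field K] (t : K) {p : K[X]} (hp : Irreducible p) :
    Irreducible (taylor t p) :=
  (MulEquiv.irreducible_iff (taylorEquiv t).toMulEquiv).2 hp

theorem tay_dvd {K : Type} [Field K] (t : K) {p q : K[X]} (h : p ∣ q) :
    taylor t p ∣ taylor t q := by
  obtain ⟨r, rfl⟩ := h
  rw [taylor_mul]
  exact dvd_mul_right _ _

theorem tay_neg {K : Type} [Field K] (t : K) (p : K[X]) : taylor (-t) (taylor t p) = p := by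
  rw [taylor_taylor, neg_add_cancel, taylor_zero]

variable {k K : Type} [Field k] [Field K] [Algebra k K]

/-- monic divisors of polynomials with coefficients in a subfield -/
theorem coeff_dvd (F : IntermediateField k K) {H g : K[X]} (hH : H ≠ 0)
    (hHF : ∀ i, H.coeff i / H.leadingCoeff ∈ F) (hg : g ∣ H) (i : ℕ) :
    IsIntegral F (g.coeff i / g.leadingCoeff) := by
  have hg0 : g ≠ 0 := by
    rintro rfl
    exact hH (zero_dvd_iff.1 hg)
  have hl : H.leadingCoeff ≠ 0 := leadingCoeff_ne_zero.2 hH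
  have hgl : g.leadingCoeff ≠ 0 := leadingCoeff_ne_zero.2 hg0
  have h1 : C (H.leadingCoeff)⁻¹ * H ∈ lifts (algebraMap F K) := by
    rw [lifts_iff_coeff_lifts]
    intro j
    rw [coeff_C_mul]
    exact ⟨⟨_, hHF j⟩, by
      change H.coeff j / H.leadingCoeff = _
      rw [div_eq_inv_mul]⟩
  have hmon : (C (H.leadingCoeff)⁻¹ * H).Monic := by
    rw [Monic, leadingCoeff_mul, leadingCoeff_C, inv_mul_cancel₀ hl]
  obtain ⟨p, hp, -, hpm⟩ := lifts_and_degree_eq_and_monic h1 hmon
  have h2 := isIntegral_coeff_of_dvd p (C (g.leadingCoeff)⁻¹ * g) hpm (by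
    rw [Monic, leadingCoeff_mul, leadingCoeff_C, inv_mul_cancel₀ hgl]) (by
      rw [hp]
      obtain ⟨g', hg'⟩ := hg
      refine ⟨C g.leadingCoeff * (C (H.leadingCoeff)⁻¹ * g'), ?_⟩
      rw [show C (g.leadingCoeff)⁻¹ * g * (C g.leadingCoeff * (C (H.leadingCoeff)⁻¹ * g')) =
        (C (g.leadingCoeff)⁻¹ * C g.leadingCoeff) * (C (H.leadingCoeff)⁻¹ * (g * g')) by ring,
        ← C_mul, inv_mul_cancel₀ hgl, C_1, one_mul, ← hg']) i
  rw [coeff_C_mul] at h2
  rwa [div_eq_inv_mul]

/-- **Many polynomials.** -/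
theorem prod_trick [IsAlgClosed k] [CharZero k] {w : ℕ} (htr : Algebra.trdeg k K = w)
    (hgt : ¬ GeneralType k K w) {m R N : ℕ} (hm : 2 ≤ m)
    (hN : 4 * (R * m) + (R * m + 1) ^ 2 < 2 * (N + 1)) (h : Fin R → K[X]) (h0 : ∀ i, h i ≠ 0)
    (hdeg : ∀ i, (h i).natDegree ≤ m)
    (hpow : ∀ i, ∀ t ≤ N + R * m ^ 2, ∃ y : K, y ^ m = (h i).eval (t : K))
    (hmult : ∀ i, ∀ p : K[X], Irreducible p → ¬ p ^ m ∣ h i) :
    ∃ E : IntermediateField k K, E ≠ ⊤ ∧ (∀ x : K, IsAlgebraic E x → x ∈ E) ∧
      ∀ i, ∃ u : K, u ≠ 0 ∧ ∀ j, ∃ e ∈ E, (h i).coeff j = u * e := by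
  classical
  have hchK : CharZero K := charZero_of_injective_algebraMap (algebraMap k K).injective
  obtain ⟨T, hT, hTc⟩ := exists_shift R h h0 hdeg
  set g : Fin R → K[X] := fun i => taylor (T i : K) (h i) with hg
  have hg0 : ∀ i, g i ≠ 0 := fun i => by rw [hg]; simp only [Ne, taylor_eq_zero]; exact h0 i
  set H : K[X] := ∏ i, g i with hH
  have hH0 : H ≠ 0 := Finset.prod_ne_zero_iff.2 fun i _ => hg0 i
  have hHdeg : H.natDegree ≤ R * m := by
    rw [hH, natDegree_prod _ _ fun i _ => hg0 i]
    calc ∑ i, (g i).natDegree ≤ ∑ _i : Fin R, m := by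
          refine Finset.sum_le_sum fun i _ => ?_
          rw [hg]
          simp only [natDegree_taylor]
          exact hdeg i
      _ = R * m := by rw [Finset.sum_const, Finset.card_univ, Fintype.card_fin, smul_eq_mul]
  set S : Set K := {x | ∃ i j, x = H.coeff i / H.coeff j} with hS
  let F₀ : IntermediateField k K := IntermediateField.adjoin k S
  let F₁ : IntermediateField F₀ K := algebraicClosure F₀ K
  let E : IntermediateField k K := F₁.restrictScalars k
  have hEint : ∀ x : K, IsIntegral F₀ x → x ∈ E := fun x hx =>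
    mem_algebraicClosure_iff.2 hx.isAlgebraic
  have hE : ∀ x : K, IsAlgebraic E x → x ∈ E := by
    intro x hx
    have h1 : IsAlgebraic F₁ x := hx
    have h2 : IsAlgebraic F₀ x := h1.restrictScalars F₀
    exact mem_algebraicClosure_iff.2 h2
  refine ⟨E, ?_, hE, ?_⟩
  · intro htop
    apply hgt
    apply Pool.Agent.Y190.BV.general_of_log
    refine core_rad htr hm hN (fun i : Fin (N + 1) => ((i : ℕ) : k)) (fun i j hij => Fin.ext (by
      have hij' : ((i : ℕ) : k) = ((j : ℕ) : k) := hij
      exact_mod_cast hij')) H hH0 hHdeg ?_ (fun i => ?_) ?_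
    · rw [← IntermediateField.isAlgebraic_adjoin_iff_top]
      refine ⟨fun x => ?_⟩
      have h1 : x ∈ E := by
        rw [htop]
        exact IntermediateField.mem_top
      exact mem_algebraicClosure_iff.1 h1
    · have h1 : ∀ l, ∃ y : K, y ^ m = (g l).eval ((i : ℕ) : K) := by
        intro l
        rw [hg]
        simp only [taylor_eval]
        have h2 := hpow l ((i : ℕ) + T l) (by
          have := hT l
          omega)
        rwa [Nat.cast_add] at h2
      choose y hy using h1
      refine ⟨∏ l, y l, ?_⟩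
      rw [← Finset.prod_pow, hH, eval_prod]
      refine Finset.prod_congr rfl fun l _ => ?_
      rw [hy l, map_natCast]
    · intro p hp hpH
      have hpp : Prime p := hp.prime
      obtain ⟨i, -, hi⟩ := (hpp.dvd_finsetProd_iff g).1
        ((dvd_pow_self p (by omega : m ≠ 0)).trans hpH)
      have hco : IsCoprime (p ^ m) (∏ j ∈ Finset.univ.erase i, g j) := by
        apply IsCoprime.pow_left
        apply IsCoprime.prod_right
        intro j hj
        exact (hTc i j (Ne.symm (Finset.ne_of_mem_erase hj))).of_isCoprime_of_dvd_left hi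
      rw [hH, ← Finset.mul_prod_erase _ _ (Finset.mem_univ i)] at hpH
      have h1 := hco.dvd_of_dvd_mul_right hpH
      have h2 := tay_dvd (-(T i : K)) h1
      rw [tay_neg, taylor_pow] at h2
      exact hmult i _ (tay_irr _ hp) h2
  · intro i
    have hHF : ∀ j, H.coeff j / H.leadingCoeff ∈ F₀ := fun j =>
      IntermediateField.subset_adjoin k S ⟨j, H.natDegree, rfl⟩
    have h1 : ∀ j, (g i).coeff j / (g i).leadingCoeff ∈ E := fun j =>
      hEint _ (coeff_dvd F₀ hH0 hHF (Finset.dvd_prod_of_mem g (Finset.mem_univ i)) j)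
    have hgl : (g i).leadingCoeff ≠ 0 := leadingCoeff_ne_zero.2 (hg0 i)
    refine ⟨(g i).leadingCoeff, hgl, fun j => ⟨(h i).coeff j / (g i).leadingCoeff, ?_, by
      rw [mul_div_cancel₀ _ hgl]⟩⟩
    have h2 : C ((g i).leadingCoeff)⁻¹ * g i ∈ lifts (algebraMap E K) := by
      rw [lifts_iff_coeff_lifts]
      intro j
      rw [coeff_C_mul]
      exact ⟨⟨_, h1 j⟩, by
        change (g i).coeff j / (g i).leadingCoeff = _
        rw [div_eq_inv_mul]⟩
    obtain ⟨P, hP⟩ := h2
    have h3 : C ((g i).leadingCoeff)⁻¹ * h i =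
        (taylor (-(T i : E)) P).map (algebraMap E K) := by
      have h4 : (P.map (algebraMap E K)) = C ((g i).leadingCoeff)⁻¹ * g i := hP
      rw [taylor_apply, Polynomial.map_comp, h4, Polynomial.map_add, map_X, map_C, map_neg,
        map_natCast, mul_comp, C_comp]
      congr 1
      have e1 : h i = taylor (-(T i : K)) (g i) := (tay_neg _ _).symm
      conv_lhs => rw [e1, taylor_apply]
    have h5 := congrArg (fun p => coeff p j) h3
    simp only [coeff_C_mul, coeff_map] at h5
    rw [div_eq_inv_mul, h5]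
    exact (((taylor (-(T i : E)) P).coeff j : E)).2

end Pool.Agent.H441.UA
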