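import Pool.Agent.H441.UA.Fun
import Pool.Agent.H441.DQ.Geo

/-!
Subvarieties of intersections of diagonal hypersurfaces which are not of general type.
-/

set_option autoImplicit false

namespace Pool.Agent.H441.UA

open MvPolynomial
open Pool.Agent.W602.GT (GeneralType coords)
open Pool.Agent.H441.DF (root_const)
open Pool.Agent.H441.DQ

/-- the ratios of the coordinates are not all in a smaller field -/
theorem not_ratios {k L : Type} [Field k] [Field L] [Algebra k L] {N : ℕ} {y : Fin (N + 1) → L}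
    (hgen : coords k y = ⊤) {E : IntermediateField k L} (hE : E ≠ ⊤)
    (h : ∀ i j, y i / y j ∈ E) : False := by
  apply hE
  rw [eq_top_iff, ← hgen]
  unfold coords
  rw [IntermediateField.adjoin_le_iff]
  rintro _ ⟨i, j, -, rfl⟩
  exact h i j

/-- **The structure of the subvarieties which are not of general type.** -/
theorem sub_rel {K : Type} [Field K] [CharZero K] {k : Type} [Field k] [IsAlgClosed k] [CharZero k]
    (σ : K →+* k) {M N m B : ℕ} {A : Fin (N + 1) → Fin (M + 1) → K} (hm : 2 ≤ m) (ha : Box B A)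
    (hB : bd (M + 1) m ≤ B) {ι : Type} (q : ι → MvPolynomial (Fin (M + 1)) K) {L : Type}
    [Field L] [Algebra k L] {w : ℕ} {y : Fin (N + 1) → L} (hgen : coords k y = ⊤)
    (htr : Algebra.trdeg k L = w) (hgt : ¬ GeneralType k L w)
    (hrel : ∀ c ∈ rel m A q, ∑ j, algebraMap k L (σ (c j)) * y j ^ m = 0) :
    ∃ (ζ : Fin (N + 1) → k) (x : Fin (M + 1) → L), (∀ j, ζ j ^ m = 1) ∧
      ∀ j, y j = algebraMap k L (ζ j) * lins ((algebraMap k L).comp σ) A x j := by
  classical
  let _ : Algebra K L := ((algebraMap k L).comp σ).toAlgebra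
  obtain ⟨Λ, hΛ⟩ := exists_fun (m := m) (A := A) (Y := fun j => y j ^ m) fun c hc => hrel c (by
    rw [mem_rel, hc]
    exact Submodule.zero_mem _)
  obtain ⟨E, hE, hcl, h⟩ := main_gt (k := k) (fun x => ⟨σ x, rfl⟩) htr hgt hm Λ (fun c hc => by
    obtain ⟨j, hj⟩ := ha c (fun i => (hc i).trans hB)
    refine ⟨y j, ?_⟩
    rw [← hΛ, hj, linK_nat])
  rcases h with ⟨u, hu, h1⟩ | ⟨x, hx⟩
  · exfalso
    refine not_ratios hgen hE fun i j => ?_
    obtain ⟨e, he, h2⟩ := h1 (linK (A i) ^ m) (linK_hom _ _)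
    obtain ⟨e', he', h3⟩ := h1 (linK (A j) ^ m) (linK_hom _ _)
    rw [hΛ] at h2 h3
    apply hcl
    have h4 : (y i / y j) ^ m ∈ E := by
      rw [div_pow, h2, h3, mul_div_mul_left _ _ hu]
      exact E.div_mem he he'
    exact IsAlgebraic.of_pow (by omega) (isAlgebraic_algebraMap (⟨_, h4⟩ : E))
  · have hy : ∀ j, y j ^ m = lins ((algebraMap k L).comp σ) A x j ^ m := by
      intro j
      have h1 := hx _ (linK_hom (A j) m)
      rw [hΛ, map_pow, linK_eval] at h1
      exact h1
    have hζ : ∀ j, ∃ c : k, c ^ m = 1 ∧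
        y j = algebraMap k L c * lins ((algebraMap k L).comp σ) A x j := by
      intro j
      by_cases h0 : lins ((algebraMap k L).comp σ) A x j = 0
      · refine ⟨1, one_pow _, ?_⟩
        have h1 := hy j
        rw [h0, zero_pow (by omega)] at h1
        rw [h0, mul_zero]
        exact eq_zero_of_pow_eq_zero h1
      · obtain ⟨c, hc, hcζ⟩ := root_const (k := k) (m := m) (by omega)
          (ζ := y j / lins ((algebraMap k L).comp σ) A x j) (by
            rw [div_pow, hy j, div_self (pow_ne_zero _ h0)])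
        refine ⟨c, hc, ?_⟩
        rw [hcζ, div_mul_cancel₀ _ h0]
    choose ζ hζm hζ using hζ
    exact ⟨ζ, x, hζm, hζ⟩

end Pool.Agent.H441.UA
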